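import Pool.Agent.H305R3.Rot.Dual
import Pool.Agent.Y278.Rot.Smooth2

/-!
# Bounded second differences of a transitive norm at one point
-/

set_option autoImplicit false

namespace Pool.Agent.Q199.BD

open Topology Metric Pool.H755R2.MT Pool.H305R3.Rot

section

variable {E : Type*} [NormedAddCommGroup E] [NormedSpace ℝ E]

lemma dl_neg' (x w : E) : dl x (-w) = dl x w := by
  unfold dl
  rw [← sub_eq_add_neg, sub_neg_eq_add]
  ring

lemma dl_half (x a b : E) : dl x ((1 / 2 : ℝ) • (a + b)) ≤ (dl x a + dl x b) / 2 := by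
  unfold dl
  have e1 : x + (1 / 2 : ℝ) • (a + b) = (1 / 2 : ℝ) • ((x + a) + (x + b)) := by module
  have e2 : x - (1 / 2 : ℝ) • (a + b) = (1 / 2 : ℝ) • ((x - a) + (x - b)) := by module
  rw [e1, e2, norm_smul, norm_smul, Real.norm_of_nonneg (by norm_num : (0 : ℝ) ≤ 1 / 2)]
  have h1 := norm_add_le (x + a) (x + b)
  have h2 := norm_add_le (x - a) (x - b)
  linarith

lemma dl_cont (x : E) (t : ℝ) : Continuous fun w : E => dl x (t • w) := by
  unfold dl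
  fun_prop

lemma dl_le_two (x w : E) (hx : ‖x‖ = 1) : dl x w ≤ 2 * ‖w‖ := by
  unfold dl
  have h1 := norm_add_le x w
  have h2 := norm_sub_le x w
  linarith

/-- a local bound along a line is a global bound along this line -/
lemma line_of_isBigO (x w : E) (hx : ‖x‖ = 1)
    (h : (fun t : ℝ => ‖x + t • w‖ + ‖x - t • w‖ - 2) =O[𝓝 0] fun t : ℝ => t ^ 2) :
    ∃ K : ℝ, ∀ t : ℝ, dl x (t • w) ≤ K * t ^ 2 := by
  obtain ⟨C, hC⟩ := h.bound
  obtain ⟨δ, hδ, hb⟩ := Metric.eventually_nhds_iff.1 hC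
  refine ⟨max C 0 + 2 * ‖w‖ / δ, fun t => ?_⟩
  rcases lt_or_ge (|t|) δ with ht | ht
  · have h1 := hb (y := t) (by rw [Real.dist_eq, sub_zero]; exact ht)
    have h2 : dl x (t • w) = ‖x + t • w‖ + ‖x - t • w‖ - 2 := by
      unfold dl
      rw [hx, mul_one]
    rw [h2]
    rw [Real.norm_eq_abs, Real.norm_eq_abs, abs_of_nonneg (sq_nonneg t)] at h1
    have h3 : C * t ^ 2 ≤ max C 0 * t ^ 2 :=
      mul_le_mul_of_nonneg_right (le_max_left _ _) (sq_nonneg t)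
    have h4 : 0 ≤ 2 * ‖w‖ / δ * t ^ 2 := by positivity
    have h5 := le_abs_self (‖x + t • w‖ + ‖x - t • w‖ - 2)
    nlinarith
  · refine (dl_le_two x _ hx).trans ?_
    rw [norm_smul, Real.norm_eq_abs]
    have h3 : 0 ≤ max C 0 * t ^ 2 := by positivity
    have h4 : 2 * (|t| * ‖w‖) ≤ 2 * ‖w‖ / δ * t ^ 2 := by
      rw [← sq_abs t, div_mul_eq_mul_div, le_div_iff₀ hδ]
      have : 0 ≤ 2 * (|t| * ‖w‖) := by positivity
      nlinarith
    nlinarith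

/-- bounds in a non-meagre set of directions are uniform -/
theorem uniform_of_nonmeagre (x : E) (hx : ‖x‖ = 1)
    (h : ¬ IsMeagre {w : E | (fun t : ℝ => ‖x + t • w‖ + ‖x - t • w‖ - 2) =O[𝓝 0]
      fun t : ℝ => t ^ 2}) :
    ∃ K : ℝ, 0 < K ∧ ∀ w : E, dl x w ≤ K * ‖w‖ ^ 2 := by
  let D : ℕ → Set E := fun n => {w | ∀ t : ℝ, dl x (t • w) ≤ n * t ^ 2}
  have hcl : ∀ n, IsClosed (D n) := by
    intro n
    have : D n = ⋂ t : ℝ, {w | dl x (t • w) ≤ n * t ^ 2} := by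
      ext w
      simp [D]
    rw [this]
    exact isClosed_iInter fun t => isClosed_le (dl_cont x t) continuous_const
  have hun : {w : E | (fun t : ℝ => ‖x + t • w‖ + ‖x - t • w‖ - 2) =O[𝓝 0]
      fun t : ℝ => t ^ 2} ⊆ ⋃ n, D n := by
    intro w hw
    obtain ⟨K, hK⟩ := line_of_isBigO x w hx hw
    obtain ⟨n, hn⟩ := exists_nat_ge K
    exact Set.mem_iUnion.2 ⟨n, fun t => (hK t).trans (mul_le_mul_of_nonneg_right hn (sq_nonneg t))⟩
  obtain ⟨n, w₀, hw₀⟩ : ∃ n, (interior (D n)).Nonempty := by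
    by_contra hc
    push Not at hc
    refine h (IsMeagre.mono hun (isMeagre_iUnion fun n => ?_))
    exact ((hcl n).isNowhereDense_iff.2 (hc n)).isMeagre
  obtain ⟨r, hr, hball⟩ := Metric.mem_nhds_iff.1 (mem_interior_iff_mem_nhds.1 hw₀)
  have hsym : ∀ w, w ∈ D n → -w ∈ D n := by
    intro w hw t
    rw [smul_neg, dl_neg']
    exact hw t
  have hsmall : ∀ w : E, ‖w‖ < r → w ∈ D n := by
    intro w hw t
    have h1 : w₀ + w ∈ D n := hball (by rw [mem_ball, dist_eq_norm, add_sub_cancel_left]; exact hw)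
    have h2 : w₀ - w ∈ D n := hball (by
      rw [mem_ball, dist_eq_norm, sub_sub_cancel_left, norm_neg]; exact hw)
    have h3 := hsym _ h2
    have e : t • w = (1 / 2 : ℝ) • (t • (w₀ + w) + t • (-(w₀ - w))) := by module
    rw [e]
    refine (dl_half x _ _).trans ?_
    have h4 := h1 t
    have h5 := h3 t
    linarith
  refine ⟨4 * n / r ^ 2 + 1, by positivity, fun w => ?_⟩
  by_cases hw : w = 0
  · subst hw
    have : dl x (0 : E) = 0 := by unfold dl; rw [add_zero, sub_zero]; ring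
    rw [this]
    positivity
  have hw' : 0 < ‖w‖ := norm_pos_iff.2 hw
  have h1 := hsmall ((r / (2 * ‖w‖)) • w) (by
    rw [norm_smul, Real.norm_of_nonneg (by positivity)]
    have : r / (2 * ‖w‖) * ‖w‖ = r / 2 := by field_simp
    rw [this]
    linarith) (2 * ‖w‖ / r)
  have e : (2 * ‖w‖ / r) • (r / (2 * ‖w‖)) • w = w := by
    rw [smul_smul]
    have : 2 * ‖w‖ / r * (r / (2 * ‖w‖)) = 1 := by field_simp
    rw [this, one_smul]
  rw [e] at h1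
  refine h1.trans ?_
  have : (n : ℝ) * (2 * ‖w‖ / r) ^ 2 = 4 * n / r ^ 2 * ‖w‖ ^ 2 := by
    field_simp
    ring
  rw [this]
  nlinarith [sq_nonneg ‖w‖]

lemma dl_map' (T : E ≃ₗᵢ[ℝ] E) (x w : E) : dl (T x) (T w) = dl x w := by
  unfold dl
  rw [← map_add, ← map_sub, T.norm_map, T.norm_map, T.norm_map]

/-- transitivity moves the bound to all points -/
theorem all_of_point (htr : ∀ x y : E, ‖x‖ = 1 → ‖y‖ = 1 → ∃ T : E ≃ₗᵢ[ℝ] E, T x = y)
    {x₀ : E} (hx₀ : ‖x₀‖ = 1) {K : ℝ} (hK : ∀ w : E, dl x₀ w ≤ K * ‖w‖ ^ 2) :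
    ∀ x w : E, ‖x‖ = 1 → dl x w ≤ K * ‖w‖ ^ 2 := by
  intro x w hx
  obtain ⟨T, hT⟩ := htr x₀ x hx₀ hx
  have h1 := hK (T.symm w)
  rw [T.symm.norm_map, ← dl_map' T, hT, T.apply_symm_apply] at h1
  exact h1

end

variable {E : Type} [NormedAddCommGroup E] [NormedSpace ℝ E]

theorem dual_tr [CompleteSpace E]
    (htr : ∀ x y : E, ‖x‖ = 1 → ‖y‖ = 1 → ∃ T : E ≃ₗᵢ[ℝ] E, T x = y)
    {K : ℝ} (hK0 : 0 < K) (hK : ∀ x w : E, ‖x‖ = 1 → dl x w ≤ K * ‖w‖ ^ 2) :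
    ∀ f g : StrongDual ℝ E, ‖f‖ = 1 → ‖g‖ = 1 →
      ∃ T : StrongDual ℝ E ≃ₗᵢ[ℝ] StrongDual ℝ E, T f = g := by
  intro f g hf hg
  obtain ⟨T, hT⟩ := dual_transitive hK0 hK htr f g hf hg
  exact ⟨dualIso T, hT⟩

/-- sufficiency -/
theorem suff [CompleteSpace E]
    (htr : ∀ x y : E, ‖x‖ = 1 → ‖y‖ = 1 → ∃ T : E ≃ₗᵢ[ℝ] E, T x = y)
    {x₀ : E} (hx₀ : ‖x₀‖ = 1)
    (h : ¬ IsMeagre {w : E | (fun t : ℝ => ‖x₀ + t • w‖ + ‖x₀ - t • w‖ - 2) =O[𝓝 0]
      fun t : ℝ => t ^ 2})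
    {g₀ : StrongDual ℝ E} (hg₀ : ‖g₀‖ = 1)
    (h' : ¬ IsMeagre {w : StrongDual ℝ E | (fun t : ℝ => ‖g₀ + t • w‖ + ‖g₀ - t • w‖ - 2) =O[𝓝 0]
      fun t : ℝ => t ^ 2}) :
    ∃ (H : Type) (_ : NormedAddCommGroup H) (_ : InnerProductSpace ℝ H)
      (_ : CompleteSpace H), Nonempty (E ≃L[ℝ] H) := by
  obtain ⟨K, hK0, hK1⟩ := uniform_of_nonmeagre x₀ hx₀ h
  have hK := all_of_point htr hx₀ hK1
  obtain ⟨K', hK'0, hK'1⟩ := uniform_of_nonmeagre g₀ hg₀ h'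
  have hK' := all_of_point (dual_tr htr hK0 hK) hg₀ hK'1
  refine hilbert_of_bounds (c := 4 / (2 + 2 * K')) (C := 2 + 2 * K) (by positivity)
    (by positivity) ?_ (sq_upper hK)
  exact sq_lower (by positivity) (sq_upper hK')

/-- necessity -/
theorem nec [CompleteSpace E]
    (htr : ∀ x y : E, ‖x‖ = 1 → ‖y‖ = 1 → ∃ T : E ≃ₗᵢ[ℝ] E, T x = y)
    {H : Type} [NormedAddCommGroup H] [InnerProductSpace ℝ H] (Φ : E ≃L[ℝ] H) :
    ∃ K : ℝ, 0 < K ∧ (∀ x w : E, ‖x‖ = 1 → dl x w ≤ K * ‖w‖ ^ 2) ∧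
      ∀ g h : StrongDual ℝ E, ‖g‖ = 1 → dl g h ≤ K * ‖h‖ ^ 2 := by
  obtain ⟨K, hK0, hK⟩ := Pool.Agent.Y278.Rot.two_smooth htr Φ
  have hcH : CompleteSpace H :=
    (completeSpace_congr (e := Φ.toLinearEquiv.toEquiv) Φ.isUniformEmbedding).1 inferInstance
  have hd := dual_tr htr hK0 (fun x w hx => hK x w hx)
  let Ψ : StrongDual ℝ E ≃L[ℝ] H :=
    (ContinuousLinearEquiv.arrowCongr Φ (ContinuousLinearEquiv.refl ℝ ℝ)).trans
      (InnerProductSpace.toDual ℝ H).toContinuousLinearEquiv.symm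
  obtain ⟨K', hK'0, hK'⟩ := Pool.Agent.Y278.Rot.two_smooth hd Ψ
  refine ⟨max K K', by positivity, fun x w hx => (hK x w hx).trans ?_,
    fun g h hg => (hK' g h hg).trans ?_⟩
  · exact mul_le_mul_of_nonneg_right (le_max_left _ _) (sq_nonneg _)
  · exact mul_le_mul_of_nonneg_right (le_max_right _ _) (sq_nonneg _)

/-- a uniform bound gives the local bound in every direction -/
lemma isBigO_of_bound {F : Type} [NormedAddCommGroup F] [NormedSpace ℝ F] {K : ℝ} (x : F)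
    (hx : ‖x‖ = 1) (hK : ∀ w : F, dl x w ≤ K * ‖w‖ ^ 2) (w : F) :
    (fun t : ℝ => ‖x + t • w‖ + ‖x - t • w‖ - 2) =O[𝓝 0] fun t : ℝ => t ^ 2 := by
  refine Asymptotics.IsBigO.of_bound (K * ‖w‖ ^ 2) (Filter.Eventually.of_forall fun t => ?_)
  have h1 := hK (t • w)
  have h0 := dl_nonneg x (t • w)
  unfold dl at h1 h0
  rw [hx, mul_one] at h1 h0
  rw [norm_smul, Real.norm_eq_abs, mul_pow, sq_abs] at h1
  rw [Real.norm_eq_abs, Real.norm_eq_abs, abs_of_nonneg h0, abs_of_nonneg (sq_nonneg t)]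
  linarith

end Pool.Agent.Q199.BD
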